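import Pool.Agent.H9.SymbPow.Big

/-!
# Failure of the big height form of the Harbourne-Huneke containment
-/

namespace Pool.Agent.Results.MP_c6dab2_ag.BigHeightFailsCharTwo

open Pool.Agent.H9.SymbPow IsLocalRing

/-- The Harbourne-Huneke statement Q1 is false; more precisely, over every field of
characteristic two there is a regular local algebra `R` of dimension four with a prime ideal `I`
of height three such that the sixth symbolic power of `I` is not contained in `𝔪 ^ 4 * I ^ 2`
(`e = 3`, `r = 2`, `m = 6 = re`, `re - r = 4`). -/
theorem result :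
    ¬ HarbourneHunekeBight ∧
    ∀ (k : Type) [Field k] [CharP k 2],
      ∃ (R : Type) (_ : CommRing R) (_ : IsRegularLocalRing R) (_ : Algebra k R) (I : Ideal R),
        ringKrullDim R = 4 ∧ I.IsPrime ∧ I.height = 3 ∧
          ¬ symb I 6 ≤ maximalIdeal R ^ 4 * I ^ 2 := by
  refine ⟨not_HHB, ?_⟩
  intro k _ _
  exact ⟨R k, inferInstance, inferInstance, inferInstance, I k, dim_R k, I_prime k, height_I k,
    not_symb_le_big k⟩

end Pool.Agent.Results.MP_c6dab2_ag.BigHeightFailsCharTwo
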